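import Pool.Agent.Q291.SAP.J

/-!
# The area of self-avoiding polygons for `q > 1`: an explicit discrete limit law

Author: helper291. Definitions: `Pool/Agent/Q291/SAP/A.lean` (`Encloses`, `IsPolygon`, `Normal`,
`polygons`, `perim`, `Wide`), `C.lean` (`X`, `emb`, `box`, `cuts`, `cut`, `total`), `F.lean`
(`defect`, `num`), `G.lean` (`Model`, `count`), `H.lean` (`Z`, `law`, `limLaw`), `I.lean` (`distr`),
`J.lean` (`polyLaw`, `gibbs`).
-/

set_option autoImplicit false

open Filter Topology ProbabilityTheory Pool.Agent.Q291.SAP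

namespace Pool.Agent.Results.MP_d21795_pr.InflatedPhase

/-- Fixed perimeter ensemble with weight `q ^ area`, for every `q > 1`, for self-avoiding polygons
(`F = polygons`) and for every other model `F` (`Model`: `F m` contains the rectangles of
half-perimeter `m` without small Young diagrams at the four corners, and consists of finite sets of
squares of perimeter at most `2m` with consecutive nonempty rows and columns). `X_m` is the area of
the random member of half-perimeter `m`.

* `law F q m` is a probability law (that of `X_m`), and `X_m ≤ ⌊m²/4⌋`.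
* Let `m = 2s + e → ∞` with `e = 0` (even) or `e = 1` (odd) fixed. For every integer `t` and all
  Young diagrams `l c` (`y = (t, l)`) the probability that the random member is the rectangle
  `(s + e + t) × (s - t)` without the `l c` at its four corners converges to `gibbs q e y`, a
  probability law, proportional to `q ^ -(t² + e t + total number of cells)`.
* The law of `⌊m²/4⌋ - X_m` converges to the probability law `limLaw q e` on `{0,1,2,…}`: the
  probability of `k` is proportional to `q ^ -k` times the number of such `(t, l)` with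
  `t² + e t + total number of cells = k`; and all moments converge.
* Hence for no centring and scaling, and along no subsequence, is the limit law of `X_m`
  Gaussian. -/
theorem result :
    (Model polygons ∧
      ∀ F : ℕ → Set (Finset Pt), (∀ m, polygons m ⊆ F m ∧ F m ⊆ Wide m) → Model F) ∧
    ∀ F : ℕ → Set (Finset Pt), Model F → ∀ q : ℝ, 1 < q →
    (∀ m, 2 ≤ m → (F m).Finite ∧ (∀ n, 0 ≤ law F q m n) ∧ HasSum (law F q m) 1 ∧
      ∀ n, m ^ 2 / 4 < n → law F q m n = 0) ∧
    (∀ e, e ≤ 1 →
      (HasSum (gibbs q e) 1 ∧ ∀ y : ℤ × (Bool × Bool → YoungDiagram),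
        Tendsto (fun s : ℕ => polyLaw F q (2 * s + e)
          (cut ((s : ℤ) + e + y.1).toNat ((s : ℤ) - y.1).toNat y.2)) atTop (𝓝 (gibbs q e y))) ∧
      (∀ k, 0 ≤ limLaw q e k) ∧ 0 < limLaw q e 0 ∧ HasSum (limLaw q e) 1 ∧
      (∀ k, Tendsto (fun s => law F q (2 * s + e) ((2 * s + e) ^ 2 / 4 - k)) atTop
        (𝓝 (limLaw q e k))) ∧
      ∀ j : ℕ, Summable (fun k : ℕ => (k : ℝ) ^ j * limLaw q e k) ∧
        Tendsto (fun s => ∑' n, (((2 * s + e) ^ 2 / 4 - n : ℕ) : ℝ) ^ j * law F q (2 * s + e) n)
          atTop (𝓝 (∑' k : ℕ, (k : ℝ) ^ j * limLaw q e k))) ∧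
    (∀ (φ : ℕ → ℕ), Tendsto φ atTop atTop → ∀ u v : ℕ → ℝ, (∀ i, 0 ≤ v i) →
      ¬ ∀ t, Tendsto (fun i => distr F q (φ i) (u i) (v i) t) atTop
        (𝓝 (cdf (gaussianReal 0 1) t))) := by
  refine ⟨⟨model_polygons, fun F hF => ⟨fun m _ => (hF m).2, fun a b l ha hb =>
    (hF (a + b)).1 (cut_mem_polygons ha hb)⟩⟩, fun F hF q hq => ?_⟩
  have hq0 : 0 < q := by linarith
  have h0 : 0 < q⁻¹ := inv_pos.2 hq0
  have h1 : q⁻¹ < 1 := inv_lt_one_of_one_lt₀ hq
  refine ⟨fun m hm => ⟨model_finite hF (by omega), law_nonneg hF hq0 hm, hasSum_law hF hq0 hm,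
    fun n hn => law_eq_zero hF (by omega) hn⟩, fun e he => ⟨⟨hasSum_gibbs hq he, fun y =>
    tendsto_polyLaw hF hq he y⟩, fun k => ?_, limLaw_zero_pos hq he,
    hasSum_limLaw hq he, fun k => ?_, fun j => ⟨?_, ?_⟩⟩, fun φ hφ u v hv =>
    not_gaussian hF hq φ hφ u v hv⟩
  · exact div_nonneg (mul_nonneg (Nat.cast_nonneg _) (pow_nonneg h0.le _))
      (lim_pos h0 h1 he).le
  · refine (tendsto_law hF hq he k).congr fun s => ?_
    rw [quarter he]
  · have h2 := (tendsto_weights hF h0 h1 he j).1.div_const (∑' k, (num e k : ℝ) * q⁻¹ ^ k)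
    refine h2.congr fun k => ?_
    rw [limLaw]; ring
  · refine (tendsto_moments hF hq he j).congr fun s => ?_
    rw [quarter he]

end Pool.Agent.Results.MP_d21795_pr.InflatedPhase
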